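import Mathlib

set_option autoImplicit false

namespace Pool.Agent.Lib.MP_e1ba52_co

/-- A 23-cell subset of the cyclic latin square of order 7. -/
def S7 : Finset (Fin 7 × Fin 7) :=
  {(0, 0), (0, 1), (0, 6), (1, 0), (1, 1), (1, 3), (1, 4), (1, 5), (1, 6), (2, 0), (2, 3), (2, 4), (2, 6), (3, 1), (3, 3), (3, 4), (3, 5), (3, 6), (4, 1), (4, 4), (5, 1), (5, 3), (5, 4)}

theorem S7_card : S7.card = 23 := by decide

theorem neR {n : ℕ} {M : Fin n → Fin n → Fin n} (hr : ∀ i, Function.Injective (M i))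
    {i j k v : Fin n} (h : M i k = v) (hj : j ≠ k) : M i j ≠ v :=
  fun e => hj (hr i (e.trans h.symm))

theorem neC {n : ℕ} {M : Fin n → Fin n → Fin n}
    (hc : ∀ j, Function.Injective (fun i => M i j))
    {i j k v : Fin n} (h : M k j = v) (hi : i ≠ k) : M i j ≠ v :=
  fun e => hi (hc j (e.trans h.symm))

theorem neK {n : ℕ} {x u v : Fin n} (h : x = u) (huv : u ≠ v) : x ≠ v := h ▸ huv

theorem cases7 (x : Fin 7) : x = 0 ∨ x = 1 ∨ x = 2 ∨ x = 3 ∨ x = 4 ∨ x = 5 ∨ x = 6 := by
  revert x; decide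

theorem S7_unique (M : Fin 7 → Fin 7 → Fin 7) (hr : ∀ i, Function.Injective (M i))
    (hc : ∀ j, Function.Injective (fun i => M i j))
    (hS : ∀ c ∈ S7, M c.1 c.2 = c.1 + c.2) : M = fun i j => i + j := by
  have a00 : M 0 0 = 0 := hS (0, 0) (by decide)
  have a01 : M 0 1 = 1 := hS (0, 1) (by decide)
  have a06 : M 0 6 = 6 := hS (0, 6) (by decide)
  have a10 : M 1 0 = 1 := hS (1, 0) (by decide)
  have a11 : M 1 1 = 2 := hS (1, 1) (by decide)
  have a13 : M 1 3 = 4 := hS (1, 3) (by decide)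
  have a14 : M 1 4 = 5 := hS (1, 4) (by decide)
  have a15 : M 1 5 = 6 := hS (1, 5) (by decide)
  have a16 : M 1 6 = 0 := hS (1, 6) (by decide)
  have a20 : M 2 0 = 2 := hS (2, 0) (by decide)
  have a23 : M 2 3 = 5 := hS (2, 3) (by decide)
  have a24 : M 2 4 = 6 := hS (2, 4) (by decide)
  have a26 : M 2 6 = 1 := hS (2, 6) (by decide)
  have a31 : M 3 1 = 4 := hS (3, 1) (by decide)
  have a33 : M 3 3 = 6 := hS (3, 3) (by decide)
  have a34 : M 3 4 = 0 := hS (3, 4) (by decide)
  have a35 : M 3 5 = 1 := hS (3, 5) (by decide)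
  have a36 : M 3 6 = 2 := hS (3, 6) (by decide)
  have a41 : M 4 1 = 5 := hS (4, 1) (by decide)
  have a44 : M 4 4 = 1 := hS (4, 4) (by decide)
  have a51 : M 5 1 = 6 := hS (5, 1) (by decide)
  have a53 : M 5 3 = 1 := hS (5, 3) (by decide)
  have a54 : M 5 4 = 2 := hS (5, 4) (by decide)
  have a12 : M 1 2 = 3 := by
    rcases cases7 (M 1 2) with h | h | h | h | h | h | h
    · exact absurd h (neR hr a16 (by decide))
    · exact absurd h (neR hr a10 (by decide))
    · exact absurd h (neR hr a11 (by decide))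
    · exact h
    · exact absurd h (neR hr a13 (by decide))
    · exact absurd h (neR hr a14 (by decide))
    · exact absurd h (neR hr a15 (by decide))
  have a32 : M 3 2 = 5 := by
    rcases cases7 (M 3 2) with h | h | h | h | h | h | h
    · exact absurd h (neR hr a34 (by decide))
    · exact absurd h (neR hr a35 (by decide))
    · exact absurd h (neR hr a36 (by decide))
    · exact absurd h (neC hc a12 (by decide))
    · exact absurd h (neR hr a31 (by decide))
    · exact h
    · exact absurd h (neR hr a33 (by decide))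
  have a30 : M 3 0 = 3 := by
    rcases cases7 (M 3 0) with h | h | h | h | h | h | h
    · exact absurd h (neC hc a00 (by decide))
    · exact absurd h (neC hc a10 (by decide))
    · exact absurd h (neC hc a20 (by decide))
    · exact h
    · exact absurd h (neR hr a31 (by decide))
    · exact absurd h (neR hr a32 (by decide))
    · exact absurd h (neR hr a33 (by decide))
  have a05 : M 0 5 = 5 := by
    obtain ⟨j, hj⟩ := Finite.injective_iff_surjective.mp (hr 0) 5
    rcases cases7 j with h | h | h | h | h | h | h <;> subst h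
    · exact absurd hj (neK a00 (by decide))
    · exact absurd hj (neK a01 (by decide))
    · exact absurd hj (neC hc a32 (by decide))
    · exact absurd hj (neC hc a23 (by decide))
    · exact absurd hj (neC hc a14 (by decide))
    · exact hj
    · exact absurd hj (neK a06 (by decide))
  have a62 : M 6 2 = 1 := by
    obtain ⟨j, hj⟩ := Finite.injective_iff_surjective.mp (hr 6) 1
    rcases cases7 j with h | h | h | h | h | h | h <;> subst h
    · exact absurd hj (neC hc a10 (by decide))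
    · exact absurd hj (neC hc a01 (by decide))
    · exact hj
    · exact absurd hj (neC hc a53 (by decide))
    · exact absurd hj (neC hc a44 (by decide))
    · exact absurd hj (neC hc a35 (by decide))
    · exact absurd hj (neC hc a26 (by decide))
  have a42 : M 4 2 = 6 := by
    obtain ⟨j, hj⟩ := Finite.injective_iff_surjective.mp (hc 2) 6
    rcases cases7 j with h | h | h | h | h | h | h <;> subst h
    · exact absurd hj (neR hr a06 (by decide))
    · exact absurd hj (neK a12 (by decide))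
    · exact absurd hj (neR hr a24 (by decide))
    · exact absurd hj (neK a32 (by decide))
    · exact hj
    · exact absurd hj (neR hr a51 (by decide))
    · exact absurd hj (neK a62 (by decide))
  have a40 : M 4 0 = 4 := by
    rcases cases7 (M 4 0) with h | h | h | h | h | h | h
    · exact absurd h (neC hc a00 (by decide))
    · exact absurd h (neC hc a10 (by decide))
    · exact absurd h (neC hc a20 (by decide))
    · exact absurd h (neC hc a30 (by decide))
    · exact h
    · exact absurd h (neR hr a41 (by decide))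
    · exact absurd h (neR hr a42 (by decide))
  have a46 : M 4 6 = 3 := by
    rcases cases7 (M 4 6) with h | h | h | h | h | h | h
    · exact absurd h (neC hc a16 (by decide))
    · exact absurd h (neC hc a26 (by decide))
    · exact absurd h (neC hc a36 (by decide))
    · exact h
    · exact absurd h (neR hr a40 (by decide))
    · exact absurd h (neR hr a41 (by decide))
    · exact absurd h (neC hc a06 (by decide))
  have a50 : M 5 0 = 5 := by
    rcases cases7 (M 5 0) with h | h | h | h | h | h | h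
    · exact absurd h (neC hc a00 (by decide))
    · exact absurd h (neC hc a10 (by decide))
    · exact absurd h (neC hc a20 (by decide))
    · exact absurd h (neC hc a30 (by decide))
    · exact absurd h (neC hc a40 (by decide))
    · exact h
    · exact absurd h (neR hr a51 (by decide))
  have a56 : M 5 6 = 4 := by
    rcases cases7 (M 5 6) with h | h | h | h | h | h | h
    · exact absurd h (neC hc a16 (by decide))
    · exact absurd h (neC hc a26 (by decide))
    · exact absurd h (neC hc a36 (by decide))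
    · exact absurd h (neC hc a46 (by decide))
    · exact h
    · exact absurd h (neR hr a50 (by decide))
    · exact absurd h (neC hc a06 (by decide))
  have a60 : M 6 0 = 6 := by
    rcases cases7 (M 6 0) with h | h | h | h | h | h | h
    · exact absurd h (neC hc a00 (by decide))
    · exact absurd h (neC hc a10 (by decide))
    · exact absurd h (neC hc a20 (by decide))
    · exact absurd h (neC hc a30 (by decide))
    · exact absurd h (neC hc a40 (by decide))
    · exact absurd h (neC hc a50 (by decide))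
    · exact h
  have a66 : M 6 6 = 5 := by
    rcases cases7 (M 6 6) with h | h | h | h | h | h | h
    · exact absurd h (neC hc a16 (by decide))
    · exact absurd h (neR hr a62 (by decide))
    · exact absurd h (neC hc a36 (by decide))
    · exact absurd h (neC hc a46 (by decide))
    · exact absurd h (neC hc a56 (by decide))
    · exact h
    · exact absurd h (neR hr a60 (by decide))
  have a52 : M 5 2 = 0 := by
    rcases cases7 (M 5 2) with h | h | h | h | h | h | h
    · exact h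
    · exact absurd h (neR hr a53 (by decide))
    · exact absurd h (neR hr a54 (by decide))
    · exact absurd h (neC hc a12 (by decide))
    · exact absurd h (neR hr a56 (by decide))
    · exact absurd h (neR hr a50 (by decide))
    · exact absurd h (neR hr a51 (by decide))
  have a55 : M 5 5 = 3 := by
    rcases cases7 (M 5 5) with h | h | h | h | h | h | h
    · exact absurd h (neR hr a52 (by decide))
    · exact absurd h (neR hr a53 (by decide))
    · exact absurd h (neR hr a54 (by decide))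
    · exact h
    · exact absurd h (neR hr a56 (by decide))
    · exact absurd h (neR hr a50 (by decide))
    · exact absurd h (neR hr a51 (by decide))
  have a22 : M 2 2 = 4 := by
    rcases cases7 (M 2 2) with h | h | h | h | h | h | h
    · exact absurd h (neC hc a52 (by decide))
    · exact absurd h (neR hr a26 (by decide))
    · exact absurd h (neR hr a20 (by decide))
    · exact absurd h (neC hc a12 (by decide))
    · exact h
    · exact absurd h (neR hr a23 (by decide))
    · exact absurd h (neR hr a24 (by decide))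
  have a25 : M 2 5 = 0 := by
    rcases cases7 (M 2 5) with h | h | h | h | h | h | h
    · exact h
    · exact absurd h (neC hc a35 (by decide))
    · exact absurd h (neR hr a20 (by decide))
    · exact absurd h (neC hc a55 (by decide))
    · exact absurd h (neR hr a22 (by decide))
    · exact absurd h (neC hc a05 (by decide))
    · exact absurd h (neC hc a15 (by decide))
  have a45 : M 4 5 = 2 := by
    rcases cases7 (M 4 5) with h | h | h | h | h | h | h
    · exact absurd h (neC hc a25 (by decide))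
    · exact absurd h (neC hc a35 (by decide))
    · exact h
    · exact absurd h (neC hc a55 (by decide))
    · exact absurd h (neR hr a40 (by decide))
    · exact absurd h (neC hc a05 (by decide))
    · exact absurd h (neC hc a15 (by decide))
  have a65 : M 6 5 = 4 := by
    rcases cases7 (M 6 5) with h | h | h | h | h | h | h
    · exact absurd h (neC hc a25 (by decide))
    · exact absurd h (neR hr a62 (by decide))
    · exact absurd h (neC hc a45 (by decide))
    · exact absurd h (neC hc a55 (by decide))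
    · exact h
    · exact absurd h (neC hc a05 (by decide))
    · exact absurd h (neR hr a60 (by decide))
  have a02 : M 0 2 = 2 := by
    rcases cases7 (M 0 2) with h | h | h | h | h | h | h
    · exact absurd h (neR hr a00 (by decide))
    · exact absurd h (neR hr a01 (by decide))
    · exact h
    · exact absurd h (neC hc a12 (by decide))
    · exact absurd h (neC hc a22 (by decide))
    · exact absurd h (neC hc a32 (by decide))
    · exact absurd h (neC hc a42 (by decide))
  have a03 : M 0 3 = 3 := by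
    rcases cases7 (M 0 3) with h | h | h | h | h | h | h
    · exact absurd h (neR hr a00 (by decide))
    · exact absurd h (neR hr a01 (by decide))
    · exact absurd h (neR hr a02 (by decide))
    · exact h
    · exact absurd h (neC hc a13 (by decide))
    · exact absurd h (neC hc a23 (by decide))
    · exact absurd h (neC hc a33 (by decide))
  have a04 : M 0 4 = 4 := by
    rcases cases7 (M 0 4) with h | h | h | h | h | h | h
    · exact absurd h (neR hr a00 (by decide))
    · exact absurd h (neR hr a01 (by decide))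
    · exact absurd h (neR hr a02 (by decide))
    · exact absurd h (neR hr a03 (by decide))
    · exact h
    · exact absurd h (neC hc a14 (by decide))
    · exact absurd h (neC hc a24 (by decide))
  have a21 : M 2 1 = 3 := by
    rcases cases7 (M 2 1) with h | h | h | h | h | h | h
    · exact absurd h (neR hr a25 (by decide))
    · exact absurd h (neC hc a01 (by decide))
    · exact absurd h (neR hr a20 (by decide))
    · exact h
    · exact absurd h (neR hr a22 (by decide))
    · exact absurd h (neR hr a23 (by decide))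
    · exact absurd h (neR hr a24 (by decide))
  have a43 : M 4 3 = 0 := by
    rcases cases7 (M 4 3) with h | h | h | h | h | h | h
    · exact h
    · exact absurd h (neR hr a44 (by decide))
    · exact absurd h (neR hr a45 (by decide))
    · exact absurd h (neC hc a03 (by decide))
    · exact absurd h (neR hr a40 (by decide))
    · exact absurd h (neR hr a41 (by decide))
    · exact absurd h (neR hr a42 (by decide))
  have a61 : M 6 1 = 0 := by
    rcases cases7 (M 6 1) with h | h | h | h | h | h | h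
    · exact h
    · exact absurd h (neC hc a01 (by decide))
    · exact absurd h (neC hc a11 (by decide))
    · exact absurd h (neC hc a21 (by decide))
    · exact absurd h (neC hc a31 (by decide))
    · exact absurd h (neC hc a41 (by decide))
    · exact absurd h (neR hr a60 (by decide))
  have a63 : M 6 3 = 2 := by
    rcases cases7 (M 6 3) with h | h | h | h | h | h | h
    · exact absurd h (neR hr a61 (by decide))
    · exact absurd h (neR hr a62 (by decide))
    · exact h
    · exact absurd h (neC hc a03 (by decide))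
    · exact absurd h (neC hc a13 (by decide))
    · exact absurd h (neC hc a23 (by decide))
    · exact absurd h (neR hr a60 (by decide))
  have a64 : M 6 4 = 3 := by
    rcases cases7 (M 6 4) with h | h | h | h | h | h | h
    · exact absurd h (neR hr a61 (by decide))
    · exact absurd h (neR hr a62 (by decide))
    · exact absurd h (neR hr a63 (by decide))
    · exact h
    · exact absurd h (neC hc a04 (by decide))
    · exact absurd h (neC hc a14 (by decide))
    · exact absurd h (neR hr a60 (by decide))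
  funext i j
  rcases cases7 i with h | h | h | h | h | h | h <;> subst h <;>
    rcases cases7 j with h | h | h | h | h | h | h <;> subst h <;> assumption

/-- For each cell of `S7`, a second latin square containing all other cells of `S7`. -/
def alt (c : Fin 7 × Fin 7) : Fin 7 → Fin 7 → Fin 7 :=
  if c = (0, 0) then ![![4, 1, 2, 0, 3, 5, 6], ![1, 2, 3, 4, 5, 6, 0], ![2, 3, 4, 5, 6, 0, 1], ![3, 4, 5, 6, 0, 1, 2], ![0, 5, 6, 2, 1, 3, 4], ![5, 6, 0, 1, 2, 4, 3], ![6, 0, 1, 3, 4, 2, 5]] else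
  if c = (0, 1) then ![![0, 3, 1, 2, 4, 5, 6], ![1, 2, 3, 4, 5, 6, 0], ![2, 0, 4, 5, 6, 3, 1], ![3, 4, 5, 6, 0, 1, 2], ![6, 5, 2, 3, 1, 0, 4], ![5, 6, 0, 1, 2, 4, 3], ![4, 1, 6, 0, 3, 2, 5]] else
  if c = (0, 6) then ![![0, 1, 6, 3, 4, 2, 5], ![1, 2, 3, 4, 5, 6, 0], ![2, 3, 4, 5, 6, 0, 1], ![3, 4, 5, 6, 0, 1, 2], ![4, 5, 2, 0, 1, 3, 6], ![5, 6, 0, 1, 2, 4, 3], ![6, 0, 1, 2, 3, 5, 4]] else
  if c = (1, 0) then ![![0, 1, 5, 3, 4, 2, 6], ![3, 2, 1, 4, 5, 6, 0], ![2, 3, 4, 5, 6, 0, 1], ![5, 4, 3, 6, 0, 1, 2], ![6, 5, 2, 0, 1, 3, 4], ![4, 6, 0, 1, 2, 5, 3], ![1, 0, 6, 2, 3, 4, 5]] else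
  if c = (1, 1) then ![![0, 1, 5, 3, 4, 2, 6], ![1, 3, 2, 4, 5, 6, 0], ![2, 0, 4, 5, 6, 3, 1], ![5, 4, 3, 6, 0, 1, 2], ![4, 5, 6, 2, 1, 0, 3], ![3, 6, 0, 1, 2, 4, 5], ![6, 2, 1, 0, 3, 5, 4]] else
  if c = (1, 3) then ![![0, 1, 2, 4, 3, 5, 6], ![1, 2, 4, 3, 5, 6, 0], ![2, 3, 0, 5, 6, 4, 1], ![3, 4, 5, 6, 0, 1, 2], ![4, 5, 6, 0, 1, 2, 3], ![5, 6, 3, 1, 2, 0, 4], ![6, 0, 1, 2, 4, 3, 5]] else
  if c = (1, 4) then ![![0, 1, 2, 3, 4, 5, 6], ![1, 2, 5, 4, 3, 6, 0], ![2, 3, 4, 5, 6, 0, 1], ![5, 4, 3, 6, 0, 1, 2], ![4, 5, 6, 0, 1, 2, 3], ![3, 6, 0, 1, 2, 4, 5], ![6, 0, 1, 2, 5, 3, 4]] else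
  if c = (1, 5) then ![![0, 1, 2, 3, 4, 5, 6], ![1, 2, 6, 4, 5, 3, 0], ![2, 3, 4, 5, 6, 0, 1], ![3, 4, 5, 6, 0, 1, 2], ![6, 5, 3, 0, 1, 2, 4], ![5, 6, 0, 1, 2, 4, 3], ![4, 0, 1, 2, 3, 6, 5]] else
  if c = (1, 6) then ![![0, 1, 2, 3, 4, 5, 6], ![1, 2, 0, 4, 5, 6, 3], ![2, 3, 4, 5, 6, 0, 1], ![5, 4, 3, 6, 0, 1, 2], ![3, 5, 6, 0, 1, 2, 4], ![4, 6, 5, 1, 2, 3, 0], ![6, 0, 1, 2, 3, 4, 5]] else
  if c = (2, 0) then ![![0, 1, 2, 3, 4, 5, 6], ![1, 2, 3, 4, 5, 6, 0], ![4, 3, 0, 5, 6, 2, 1], ![3, 4, 5, 6, 0, 1, 2], ![2, 5, 6, 0, 1, 3, 4], ![5, 6, 4, 1, 2, 0, 3], ![6, 0, 1, 2, 3, 4, 5]] else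
  if c = (2, 3) then ![![0, 1, 2, 5, 3, 4, 6], ![1, 2, 3, 4, 5, 6, 0], ![2, 3, 4, 0, 6, 5, 1], ![3, 4, 5, 6, 0, 1, 2], ![4, 5, 6, 2, 1, 0, 3], ![5, 6, 0, 1, 2, 3, 4], ![6, 0, 1, 3, 4, 2, 5]] else
  if c = (2, 4) then ![![0, 1, 2, 3, 4, 5, 6], ![1, 2, 3, 4, 5, 6, 0], ![2, 0, 6, 5, 3, 4, 1], ![3, 4, 5, 6, 0, 1, 2], ![6, 5, 0, 2, 1, 3, 4], ![5, 6, 4, 1, 2, 0, 3], ![4, 3, 1, 0, 6, 2, 5]] else
  if c = (2, 6) then ![![0, 1, 2, 3, 4, 5, 6], ![1, 2, 3, 4, 5, 6, 0], ![2, 3, 1, 5, 6, 0, 4], ![3, 4, 5, 6, 0, 1, 2], ![6, 5, 4, 0, 1, 2, 3], ![4, 6, 0, 1, 2, 3, 5], ![5, 0, 6, 2, 3, 4, 1]] else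
  if c = (3, 1) then ![![0, 1, 2, 3, 4, 5, 6], ![1, 2, 3, 4, 5, 6, 0], ![2, 0, 4, 5, 6, 3, 1], ![4, 3, 5, 6, 0, 1, 2], ![3, 5, 6, 0, 1, 2, 4], ![5, 6, 0, 1, 2, 4, 3], ![6, 4, 1, 2, 3, 0, 5]] else
  if c = (3, 3) then ![![0, 1, 4, 2, 3, 5, 6], ![1, 2, 3, 4, 5, 6, 0], ![2, 3, 0, 5, 6, 4, 1], ![5, 4, 6, 3, 0, 1, 2], ![6, 5, 2, 0, 1, 3, 4], ![4, 6, 5, 1, 2, 0, 3], ![3, 0, 1, 6, 4, 2, 5]] else
  if c = (3, 4) then ![![0, 1, 2, 3, 4, 5, 6], ![1, 2, 3, 4, 5, 6, 0], ![2, 0, 4, 5, 6, 3, 1], ![5, 4, 0, 6, 3, 1, 2], ![4, 5, 6, 0, 1, 2, 3], ![3, 6, 5, 1, 2, 0, 4], ![6, 3, 1, 2, 0, 4, 5]] else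
  if c = (3, 5) then ![![0, 1, 2, 3, 4, 5, 6], ![1, 2, 3, 4, 5, 6, 0], ![2, 3, 4, 5, 6, 0, 1], ![5, 4, 1, 6, 0, 3, 2], ![4, 5, 6, 0, 1, 2, 3], ![3, 6, 0, 1, 2, 4, 5], ![6, 0, 5, 2, 3, 1, 4]] else
  if c = (3, 6) then ![![0, 1, 5, 3, 4, 2, 6], ![1, 2, 3, 4, 5, 6, 0], ![2, 3, 4, 5, 6, 0, 1], ![3, 4, 2, 6, 0, 1, 5], ![4, 5, 6, 0, 1, 3, 2], ![5, 6, 0, 1, 2, 4, 3], ![6, 0, 1, 2, 3, 5, 4]] else
  if c = (4, 1) then ![![0, 1, 2, 3, 4, 5, 6], ![1, 2, 3, 4, 5, 6, 0], ![2, 3, 4, 5, 6, 0, 1], ![3, 4, 5, 6, 0, 1, 2], ![4, 0, 6, 2, 1, 3, 5], ![5, 6, 0, 1, 2, 4, 3], ![6, 5, 1, 0, 3, 2, 4]] else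
  if c = (4, 4) then ![![0, 1, 2, 3, 4, 5, 6], ![1, 2, 3, 4, 5, 6, 0], ![2, 3, 4, 5, 6, 0, 1], ![3, 4, 5, 6, 0, 1, 2], ![6, 5, 1, 0, 3, 2, 4], ![5, 6, 0, 1, 2, 4, 3], ![4, 0, 6, 2, 1, 3, 5]] else
  if c = (5, 1) then ![![0, 1, 2, 3, 4, 5, 6], ![1, 2, 3, 4, 5, 6, 0], ![2, 3, 4, 5, 6, 0, 1], ![3, 4, 5, 6, 0, 1, 2], ![6, 5, 0, 2, 1, 3, 4], ![5, 0, 6, 1, 2, 4, 3], ![4, 6, 1, 0, 3, 2, 5]] else
  if c = (5, 3) then ![![0, 1, 2, 3, 4, 5, 6], ![1, 2, 3, 4, 5, 6, 0], ![2, 3, 4, 5, 6, 0, 1], ![3, 4, 5, 6, 0, 1, 2], ![6, 5, 0, 2, 1, 3, 4], ![5, 6, 1, 0, 2, 4, 3], ![4, 0, 6, 1, 3, 2, 5]] else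
  if c = (5, 4) then ![![0, 1, 2, 3, 4, 5, 6], ![1, 2, 3, 4, 5, 6, 0], ![2, 0, 4, 5, 6, 3, 1], ![3, 4, 5, 6, 0, 1, 2], ![4, 5, 6, 2, 1, 0, 3], ![5, 6, 0, 1, 3, 2, 4], ![6, 3, 1, 0, 2, 4, 5]] else
  fun i j => i + j

theorem alt_spec : ∀ c ∈ S7, (∀ i j k, alt c i j = alt c i k → j = k) ∧
    (∀ j i k, alt c i j = alt c k j → i = k) ∧
    (∀ d ∈ S7, d ≠ c → alt c d.1 d.2 = d.1 + d.2) ∧ alt c c.1 c.2 ≠ c.1 + c.2 := by
  decide +kernel

theorem S7_minimal (c : Fin 7 × Fin 7) (hc : c ∈ S7) : ∃ M : Fin 7 → Fin 7 → Fin 7,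
    (∀ i, Function.Injective (M i)) ∧ (∀ j, Function.Injective (fun i => M i j)) ∧
    (∀ d ∈ S7.erase c, M d.1 d.2 = d.1 + d.2) ∧ M ≠ fun i j => i + j := by
  obtain ⟨h1, h2, h3, h4⟩ := alt_spec c hc
  refine ⟨alt c, fun i j k h => h1 i j k h, fun j i k h => h2 j i k h, fun d hd => ?_, fun h => ?_⟩
  · exact h3 d (Finset.mem_of_mem_erase hd) (Finset.ne_of_mem_erase hd)
  · exact h4 (by rw [h])

end Pool.Agent.Lib.MP_e1ba52_co
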